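import Pool.Agent.H820R3.PC.Dens

/-!
# Pairs of ordinates of zeta zeros in explicit windows, unconditionally

No hypothesis is assumed.  For `0 < r ≤ 1/3` let `p r = 1 - (cMT⁻¹ - 1) / K(r)²`, with the
Montgomery-Taylor constant `cMT` and kernel `K`.  For all `0 < α`, `0 < β` and all large `T`,
the number `N(T; α, β)` of pairs of ordinates in `(0, T]` whose difference lies between `α` and
`β` times the mean spacing is at least
`(∑_{α/r ≤ k ≤ β p(r)} (p r - k / β)) * (T / 2π) log T`.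
In particular it is at least a positive multiple of `T log T` whenever `2 ⌈3α⌉ ≤ β`, and for
every `β > 1 / (2 - cMT⁻¹)` (this number is less than `3/2`) there is such an `α > 0`.
-/

open Filter Topology Complex

namespace Pool.Agent.Results.MP_8958e8_nt.PairsAtEveryDistance

/-- the nontrivial zeros of zeta with ordinate in `(0, T]` -/
def zeros (T : ℝ) : Set ℂ :=
  {s : ℂ | riemannZeta s = 0 ∧ 0 < s.re ∧ s.re < 1 ∧ 0 < s.im ∧ s.im ≤ T}

/-- the multiplicity of a zero -/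
noncomputable def mult (s : ℂ) : ℕ := analyticOrderNatAt riemannZeta s

/-- `N(T; α, β)`: the number of ordered pairs of zeros in `zeros T`, counted with multiplicity,
with difference of the ordinates times `log T / 2π` in `[α, β]` -/
noncomputable def N (T α β : ℝ) : ℕ :=
  ∑ᶠ s ∈ zeros T, ∑ᶠ s' ∈ {s' : ℂ | s' ∈ zeros T ∧
    α ≤ (s.im - s'.im) * Real.log T / (2 * Real.pi) ∧
    (s.im - s'.im) * Real.log T / (2 * Real.pi) ≤ β}, mult s * mult s'

/-- the Montgomery-Taylor kernel at `r` times the mean spacing -/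
noncomputable def K (r : ℝ) : ℝ :=
  (∫ t in (-1 / 2 : ℝ)..(1 / 2), Real.cos (Real.sqrt 2 * t) * Real.cos (2 * Real.pi * r * t)) /
    (Real.sqrt 2 * Real.sin (1 / Real.sqrt 2))

/-- the Montgomery-Taylor constant -/
noncomputable def cMT : ℝ :=
  Real.sqrt 2 * Real.tan (1 / Real.sqrt 2) / (1 + Real.tan (1 / Real.sqrt 2) / Real.sqrt 2)

/-- the lower bound for the density of the isolated zeros -/
noncomputable def p (r : ℝ) : ℝ := 1 - (cMT⁻¹ - 1) / K r ^ 2

lemma zeros_eq (T : ℝ) : zeros T = H370.zset riemannZeta 0 T := by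
  ext s
  simp only [zeros, H370.zset, Set.mem_ofPred_eq]
  tauto

/-- the sets of zeros that are summed over are finite -/
theorem zeros_finite (T : ℝ) : (zeros T).Finite := by
  rw [zeros_eq]
  exact H370.zeta_zeros_finite T

theorem K_eq (r : ℝ) : K r = H344.KK r := by
  have h := H370.GramAux.kap_re_mul (2 * Real.pi * r)
  have hd := H370.GramAux.den_pos.ne'
  unfold K H344.KK
  rw [← h, mul_div_cancel_left₀ _ hd]

lemma p_eq (r : ℝ) : p r = Pool.Agent.H820R3.PC.pp r := by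
  have h2 : cMT⁻¹ = H370.cMTinv := H370.cMTinv_eq
  unfold p Pool.Agent.H820R3.PC.pp
  rw [h2, K_eq]

/-- the finite form of the lower bound -/
lemma N_lower (T α β : ℝ) (hT : 1 < T) (A : Finset ℝ)
    (hA : ∀ x ∈ A, (1 / 2 + x * I : ℂ) ∈ zeros T ∧ mult (1 / 2 + x * I : ℂ) = 1) :
    ∑ y ∈ A, (A.filter (fun x => 2 * Real.pi * α / Real.log T ≤ y - x ∧
      y - x ≤ 2 * Real.pi * β / Real.log T)).card ≤ N T α β := by
  classical
  have hlog : 0 < Real.log T := Real.log_pos hT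
  have hpi := Real.pi_pos
  set Z := (zeros_finite T).toFinset with hZ
  have hN : N T α β = ∑ s ∈ Z, ∑ s' ∈ Z.filter (fun s' =>
      α ≤ (s.im - s'.im) * Real.log T / (2 * Real.pi) ∧
      (s.im - s'.im) * Real.log T / (2 * Real.pi) ≤ β), mult s * mult s' := by
    unfold N
    rw [finsum_mem_eq_finite_toFinset_sum _ (zeros_finite T)]
    refine Finset.sum_congr rfl fun s _ => ?_
    have hfin : {s' : ℂ | s' ∈ zeros T ∧
        α ≤ (s.im - s'.im) * Real.log T / (2 * Real.pi) ∧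
        (s.im - s'.im) * Real.log T / (2 * Real.pi) ≤ β}.Finite :=
      (zeros_finite T).subset fun _ h => h.1
    rw [finsum_mem_eq_finite_toFinset_sum _ hfin]
    refine Finset.sum_congr ?_ fun _ _ => rfl
    ext s'
    rw [Set.Finite.mem_toFinset, Finset.mem_filter, hZ, Set.Finite.mem_toFinset]
    rfl
  rw [hN]
  set g : ℝ → ℂ := fun x => 1 / 2 + x * I with hg
  have him : ∀ x : ℝ, (g x).im = x := by intro x; simp [hg]
  have hinj : Function.Injective g := by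
    intro x y hxy
    have := congrArg Complex.im hxy
    rwa [him, him] at this
  have hsub : A.image g ⊆ Z := by
    intro s hs
    obtain ⟨x, hx, rfl⟩ := Finset.mem_image.mp hs
    rw [hZ, Set.Finite.mem_toFinset]
    exact (hA x hx).1
  refine le_trans ?_ (Finset.sum_le_sum_of_subset hsub)
  rw [Finset.sum_image fun x _ y _ h => hinj h]
  refine Finset.sum_le_sum fun y hy => ?_
  have hsub2 : (A.filter (fun x => 2 * Real.pi * α / Real.log T ≤ y - x ∧
      y - x ≤ 2 * Real.pi * β / Real.log T)).image g ⊆ Z.filter (fun s' =>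
      α ≤ ((g y).im - s'.im) * Real.log T / (2 * Real.pi) ∧
      ((g y).im - s'.im) * Real.log T / (2 * Real.pi) ≤ β) := by
    intro s hs
    obtain ⟨x, hx, rfl⟩ := Finset.mem_image.mp hs
    obtain ⟨hx1, hx2, hx3⟩ := Finset.mem_filter.mp hx
    refine Finset.mem_filter.mpr ⟨hsub (Finset.mem_image_of_mem g hx1), ?_, ?_⟩
    · rw [him, him, le_div_iff₀ (by positivity)]
      rw [div_le_iff₀ hlog] at hx2
      linarith
    · rw [him, him, div_le_iff₀ (by positivity)]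
      rw [le_div_iff₀ hlog] at hx3
      linarith
  refine le_trans ?_ (Finset.sum_le_sum_of_subset hsub2)
  rw [Finset.sum_image fun x _ y _ h => hinj h, Finset.card_eq_sum_ones]
  refine Finset.sum_le_sum fun x hx => ?_
  rw [(hA y hy).2, (hA x (Finset.mem_filter.mp hx).1).2]

theorem main (r α β : ℝ) (hr0 : 0 < r) (hr : r ≤ 1 / 3) (hα : 0 < α) (hβ : 0 < β) :
    ∃ T₀ : ℝ, ∀ T : ℝ, T₀ ≤ T →
      (∑ k ∈ Finset.Icc ⌈α / r⌉₊ ⌊β * p r⌋₊, (p r - k / β)) * (T / (2 * Real.pi) * Real.log T) ≤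
        (N T α β : ℝ) := by
  classical
  obtain ⟨κ, hκ, X0, hX0⟩ :=
    Pool.Agent.H820R3.PC.iso_density H370.good_zeta hr0.le hr
  set Kn := ⌊β * p r⌋₊ with hKn
  obtain ⟨X1, hX1⟩ := (Pool.Agent.H820R3.PC.MT_atTop.eventually_ge_atTop
    ((Kn : ℝ) / κ)).exists_forall_of_atTop
  have hpi := Real.pi_pos
  refine ⟨max (max X0 X1) 10, fun T hT => ?_⟩
  have hTX0 : X0 ≤ T := ((le_max_left _ _).trans (le_max_left _ _)).trans hT
  have hTX1 : X1 ≤ T := ((le_max_right _ _).trans (le_max_left _ _)).trans hT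
  have hT10 : 10 ≤ T := (le_max_right _ _).trans hT
  have hlog : 0 < Real.log T := Real.log_pos (by linarith)
  obtain ⟨a, ha1, ha2, ha3⟩ := hX0 T hTX0
  obtain ⟨A, hA1, hA2, hA3, hA4⟩ :=
    Pool.Agent.H820R3.PC.ordinates H370.good_zeta (T := T) hr0 hr ha1
  have h1 := N_lower T α β (by linarith) A (by
    intro x hx
    have := hA3 x hx
    rw [zeros_eq]
    exact this)
  have h1' : ∑ y ∈ A, ((A.filter (fun x => 2 * Real.pi * α / Real.log T ≤ y - x ∧
      y - x ≤ 2 * Real.pi * β / Real.log T)).card : ℝ) ≤ (N T α β : ℝ) := by exact_mod_cast h1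
  have h2 := Pool.Agent.H820R3.PC.comb A T (2 * Real.pi * β / Real.log T)
    (2 * Real.pi * α / Real.log T) (2 * Real.pi * r / Real.log T) (by linarith) (by positivity)
    (by positivity) (by positivity) (fun x hx => ⟨by linarith [(hA2 x hx).1], (hA2 x hx).2⟩)
    hA4 Kn
  refine le_trans ?_ (h2.trans h1')
  have e1 : 2 * Real.pi * α / Real.log T / (2 * Real.pi * r / Real.log T) = α / r := by
    field_simp
  have e2 : T / (2 * Real.pi * β / Real.log T) = Pool.Agent.H820R3.PC.MT T / β := by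
    unfold Pool.Agent.H820R3.PC.MT
    field_simp
  rw [e1, e2, Finset.sum_mul]
  refine Finset.sum_le_sum fun k hk => ?_
  have hkK : (k : ℝ) ≤ Kn := by exact_mod_cast (Finset.mem_Icc.mp hk).2
  have h3 := hX1 T hTX1
  rw [div_le_iff₀ hκ] at h3
  rw [hA1]
  rw [← p_eq] at ha3
  have e3 : T / (2 * Real.pi) * Real.log T = Pool.Agent.H820R3.PC.MT T := rfl
  rw [e3]
  set M := Pool.Agent.H820R3.PC.MT T
  calc (p r - k / β) * M = (p r + κ) * M - k * (M / β) - κ * M := by ring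
    _ ≤ (p r + κ) * M - k * (M / β) - k := by linarith
    _ ≤ _ := by
      have : (k : ℝ) * (M / β + 1) = k * (M / β) + k := by ring
      linarith

lemma two_thirds : 2 / 3 < 2 - cMT⁻¹ := by
  have h2 : cMT⁻¹ = H370.cMTinv := H370.cMTinv_eq
  have hc1 := H344.cMTinv_le
  rw [h2]
  norm_num at hc1
  linarith

lemma p_third : 1 / 2 < p (1 / 3) := by
  rw [p_eq]
  exact H344.half_lt_box

lemma p_sixth : 639 / 1000 < p (1 / 6) := by
  rw [p_eq]
  unfold Pool.Agent.H820R3.PC.pp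
  have hc1 := H344.cMTinv_le
  have hc2 := H344.cMTinv_ge
  have h1 := H344.KK_lower (1 / 6)
  have h2 := Real.pi_lt_d4
  have h3 := Real.pi_pos
  have h4 : (2 * Real.pi * (1 / 6)) ^ 2 ≤ 1.0967 := by nlinarith
  have h5 : (2 * Real.pi * (1 / 6)) ^ 2 / 2 * (H370.cMTinv - 5 / 4) ≤ 1.0967 / 2 * 0.08 := by
    apply mul_le_mul
    · linarith
    · norm_num at hc1 ⊢; linarith
    · linarith
    · norm_num
  have h6 : 0.95613 ≤ H344.KK (1 / 6) := by
    norm_num at h5 h1 ⊢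
    linarith
  have h7 : 0.9141845 ≤ H344.KK (1 / 6) ^ 2 := by
    have : (0.95613 : ℝ) ^ 2 ≤ H344.KK (1 / 6) ^ 2 := pow_le_pow_left₀ (by norm_num) h6 2
    norm_num at this ⊢
    linarith
  have h8 : 0 < H344.KK (1 / 6) ^ 2 := by norm_num at h7; linarith
  have h9 : (H370.cMTinv - 1) / H344.KK (1 / 6) ^ 2 < 361 / 1000 := by
    rw [div_lt_iff₀ h8]
    norm_num at hc1 h7 ⊢
    linarith
  linarith

/-- continuity of `p` at `0` from the right, as an inequality -/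
lemma p_near_zero (δ : ℝ) (hδ : 0 < δ) : ∃ r : ℝ, 0 < r ∧ r ≤ 1 / 3 ∧ 2 - cMT⁻¹ - δ < p r := by
  have h2 : cMT⁻¹ = H370.cMTinv := H370.cMTinv_eq
  refine ⟨min (1 / 3) (δ / 4), by positivity, min_le_left _ _, ?_⟩
  set r := min (1 / 3) (δ / 4) with hr
  have hr0 : 0 < r := by positivity
  have hr1 : r ≤ 1 / 3 := min_le_left _ _
  have hr2 : r ≤ δ / 4 := min_le_right _ _
  rw [p_eq, h2]
  unfold Pool.Agent.H820R3.PC.pp
  have hc1 := H344.cMTinv_le
  have hc2 := H344.cMTinv_ge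
  have h1 := H344.KK_lower r
  have h3 := Real.pi_lt_d2
  have h4 := Real.pi_pos
  have h5 : (2 * Real.pi * r) ^ 2 / 2 * (H370.cMTinv - 5 / 4) ≤ 2 * r ^ 2 := by
    have h6 : Real.pi ^ 2 ≤ 10 := by nlinarith
    have h7 : H370.cMTinv - 5 / 4 ≤ 0.08 := by norm_num at hc1 ⊢; linarith
    have h8 : (2 * Real.pi * r) ^ 2 / 2 = 2 * Real.pi ^ 2 * r ^ 2 := by ring
    rw [h8]
    calc 2 * Real.pi ^ 2 * r ^ 2 * (H370.cMTinv - 5 / 4) ≤ 2 * Real.pi ^ 2 * r ^ 2 * 0.08 :=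
          mul_le_mul_of_nonneg_left h7 (by positivity)
      _ ≤ 2 * 10 * r ^ 2 * 0.08 := by
          have : Real.pi ^ 2 * r ^ 2 ≤ 10 * r ^ 2 := mul_le_mul_of_nonneg_right h6 (sq_nonneg r)
          norm_num at this ⊢
          linarith
      _ ≤ 2 * r ^ 2 := by norm_num; nlinarith [sq_nonneg r]
  have hr3 : r ^ 2 ≤ 1 / 9 := by nlinarith
  have h9 : 1 - 2 * r ^ 2 ≤ H344.KK r := by linarith
  have h10 : 1 - 4 * r ^ 2 ≤ H344.KK r ^ 2 := by
    have : (1 - 2 * r ^ 2) ^ 2 ≤ H344.KK r ^ 2 := pow_le_pow_left₀ (by linarith) h9 2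
    nlinarith [sq_nonneg (r ^ 2)]
  have h11 : 5 / 9 ≤ H344.KK r ^ 2 := by linarith
  have h12 : 0 < H344.KK r ^ 2 := by linarith
  have h13 : (H370.cMTinv - 1) / H344.KK r ^ 2 < H370.cMTinv - 1 + δ := by
    rw [div_lt_iff₀ h12]
    have h14 : r ^ 2 ≤ δ / 12 := by nlinarith
    have h15 : (H370.cMTinv - 1 + δ) * H344.KK r ^ 2 ≥
        (H370.cMTinv - 1) * (1 - 4 * r ^ 2) + δ * (5 / 9) := by
      have h16 := mul_le_mul_of_nonneg_left h10 (show 0 ≤ H370.cMTinv - 1 by linarith)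
      have h17 := mul_le_mul_of_nonneg_left h11 hδ.le
      nlinarith
    have h18 : (H370.cMTinv - 1) * (4 * r ^ 2) ≤ 1 * (4 * r ^ 2) := by
      apply mul_le_mul_of_nonneg_right _ (by positivity)
      norm_num at hc1; linarith
    nlinarith
  linarith

lemma sum_lower (P β : ℝ) (q : ℕ) (hβ : 0 < β) (h : (q : ℝ) < β * P) :
    P - q / β ≤ ∑ k ∈ Finset.Icc q ⌊β * P⌋₊, (P - k / β) := by
  have h0 : 0 ≤ β * P := (Nat.cast_nonneg q).trans h.le
  refine Finset.single_le_sum (f := fun k : ℕ => P - k / β) ?_ ?_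
  · intro k hk
    have h1 : (k : ℝ) ≤ β * P := (Nat.le_floor_iff h0).mp (Finset.mem_Icc.mp hk).2
    have h2 : (k : ℝ) / β ≤ P := by rw [div_le_iff₀ hβ]; linarith
    linarith
  · exact Finset.mem_Icc.mpr ⟨le_rfl, Nat.le_floor h.le⟩

lemma one_term (r α β : ℝ) (hr0 : 0 < r) (hr : r ≤ 1 / 3) (hα : 0 < α) (hβ : 0 < β)
    (h : (⌈α / r⌉₊ : ℝ) < β * p r) :
    ∃ T₀ : ℝ, ∀ T : ℝ, T₀ ≤ T →
      (p r - ⌈α / r⌉₊ / β) * (T / (2 * Real.pi) * Real.log T) ≤ (N T α β : ℝ) := by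
  obtain ⟨T₀, hT₀⟩ := main r α β hr0 hr hα hβ
  refine ⟨max T₀ 1, fun T hT => ?_⟩
  refine le_trans ?_ (hT₀ T ((le_max_left _ _).trans hT))
  have h1 : 1 ≤ T := (le_max_right _ _).trans hT
  have hlog : 0 ≤ Real.log T := Real.log_nonneg h1
  have hpi := Real.pi_pos
  exact mul_le_mul_of_nonneg_right (sum_lower (p r) β _ hβ h) (by positivity)

/-- The lower bounds for `N(T; α, β)`. -/
theorem result :
    (∀ r α β : ℝ, 0 < r → r ≤ 1 / 3 → 0 < α → 0 < β → ∃ T₀ : ℝ, ∀ T : ℝ, T₀ ≤ T →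
      (∑ k ∈ Finset.Icc ⌈α / r⌉₊ ⌊β * p r⌋₊, (p r - k / β)) *
        (T / (2 * Real.pi) * Real.log T) ≤ (N T α β : ℝ)) ∧
    (∀ α β : ℝ, 0 < α → 2 * (⌈3 * α⌉₊ : ℝ) ≤ β → ∃ c : ℝ, 0 < c ∧ ∃ T₀ : ℝ, ∀ T : ℝ, T₀ ≤ T →
      c * (T * Real.log T) ≤ (N T α β : ℝ)) ∧
    (∀ β : ℝ, 1 / (2 - cMT⁻¹) < β → ∃ α : ℝ, 0 < α ∧ ∃ c : ℝ, 0 < c ∧ ∃ T₀ : ℝ, ∀ T : ℝ,
      T₀ ≤ T → c * (T * Real.log T) ≤ (N T α β : ℝ)) ∧
    1 / (2 - cMT⁻¹) < 3 / 2 ∧
    (∃ T₀ : ℝ, ∀ T : ℝ, T₀ ≤ T →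
      1 / 100 * (T / (2 * Real.pi) * Real.log T) ≤ (N T (1 / 6) (8 / 5) : ℝ)) ∧
    1 / 2 < p (1 / 3) ∧ 639 / 1000 < p (1 / 6) := by
  have hpi := Real.pi_pos
  have h23 := two_thirds
  refine ⟨fun r α β h1 h2 h3 h4 => main r α β h1 h2 h3 h4, ?_, ?_, ?_, ?_, p_third, p_sixth⟩
  · intro α β hα hβ
    have hp := p_third
    have hq1 : 1 ≤ ⌈3 * α⌉₊ := Nat.ceil_pos.mpr (by linarith)
    have hq2 : (1 : ℝ) ≤ (⌈3 * α⌉₊ : ℝ) := by exact_mod_cast hq1
    have hβ0 : 0 < β := by linarith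
    have e : α / (1 / 3) = 3 * α := by ring
    obtain ⟨T₀, hT₀⟩ := one_term (1 / 3) α β (by norm_num) le_rfl hα hβ0 (by
      rw [e]; nlinarith)
    rw [e] at hT₀
    have h5 : (⌈3 * α⌉₊ : ℝ) / β ≤ 1 / 2 := by
      rw [div_le_iff₀ hβ0]; linarith
    refine ⟨(p (1 / 3) - ⌈3 * α⌉₊ / β) / (2 * Real.pi), by
      apply div_pos _ (by positivity); linarith, T₀, fun T hT => ?_⟩
    have := hT₀ T hT
    calc (p (1 / 3) - ⌈3 * α⌉₊ / β) / (2 * Real.pi) * (T * Real.log T) =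
        (p (1 / 3) - ⌈3 * α⌉₊ / β) * (T / (2 * Real.pi) * Real.log T) := by ring
      _ ≤ _ := this
  · intro β hβ
    have hβ0 : 0 < β := lt_trans (by apply div_pos one_pos; linarith) hβ
    have h6 : 1 / β < 2 - cMT⁻¹ := by
      rw [div_lt_iff₀ (by linarith)] at hβ
      rw [div_lt_iff₀ hβ0]
      linarith
    obtain ⟨r, hr0, hr1, hr2⟩ := p_near_zero ((2 - cMT⁻¹ - 1 / β) / 2) (by linarith)
    have h7 : 1 / β < p r := by linarith
    have e : ⌈r / r⌉₊ = 1 := by rw [div_self hr0.ne', Nat.ceil_one]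
    obtain ⟨T₀, hT₀⟩ := one_term r r β hr0 hr1 hr0 hβ0 (by
      rw [e, Nat.cast_one]
      rw [div_lt_iff₀ hβ0] at h7
      linarith)
    rw [e, Nat.cast_one] at hT₀
    refine ⟨r, hr0, (p r - 1 / β) / (2 * Real.pi), by
      apply div_pos _ (by positivity); linarith, T₀, fun T hT => ?_⟩
    calc (p r - 1 / β) / (2 * Real.pi) * (T * Real.log T) =
        (p r - 1 / β) * (T / (2 * Real.pi) * Real.log T) := by ring
      _ ≤ _ := hT₀ T hT
  · rw [div_lt_iff₀ (by linarith)]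
    linarith
  · have hp := p_sixth
    have e : ⌈(1 / 6 : ℝ) / (1 / 6)⌉₊ = 1 := by norm_num
    obtain ⟨T₀, hT₀⟩ := one_term (1 / 6) (1 / 6) (8 / 5) (by norm_num) (by norm_num)
      (by norm_num) (by norm_num) (by rw [e, Nat.cast_one]; linarith)
    rw [e, Nat.cast_one] at hT₀
    refine ⟨max T₀ 1, fun T hT => ?_⟩
    refine le_trans ?_ (hT₀ T ((le_max_left _ _).trans hT))
    have hlog : 0 ≤ Real.log T := Real.log_nonneg ((le_max_right _ _).trans hT)
    have hT1 : 1 ≤ T := (le_max_right _ _).trans hT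
    apply mul_le_mul_of_nonneg_right _ (by positivity)
    norm_num
    linarith

end Pool.Agent.Results.MP_8958e8_nt.PairsAtEveryDistance
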