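import Pool.Agent.H24R3.PairsShort2
import Pool.Agent.H370R2.DirGood

/-!
# Pairs of ordinates in explicit windows, in every short interval, unconditionally

No hypothesis is assumed.  Let `L(s, χ)` be the L-function of a primitive Dirichlet character
(modulus `1`: the Riemann zeta function).  For `0 < h ≤ 1` put
`c h = R0 / h + h (cMT⁻¹ - R0)` and, for `0 < r ≤ 1 / (3 h)`, `p h r = 1 - (c h - 1) / K(h r)²`,
with the Montgomery-Taylor constant `cMT` and kernel `K`; `p 1 r = 1 - (cMT⁻¹ - 1) / K(r)²`.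
For all `0 < α`, `0 < β`, `0 < ε`, all large `T` and all `T ^ h ≤ H ≤ T` the number of pairs of
ordinates in `(T, T + H]` whose difference lies between `α` and `β` times the mean spacing is at
least `(∑_{α/r ≤ k ≤ β p(h,r)} (p h r - k / β) - ε) * (H / 2π) log T`.
-/

open Filter Topology Complex

namespace Pool.Agent.Results.MP_8958e8_nt.ShortIntervalPairs

/-- the nontrivial zeros of `L(s, χ)` with ordinate in `(T, T + H]` -/
def zeros {q : ℕ} [NeZero q] (χ : DirichletCharacter ℂ q) (T H : ℝ) : Set ℂ :=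
  {s : ℂ | DirichletCharacter.LFunction χ s = 0 ∧ 0 < s.re ∧ s.re < 1 ∧ T < s.im ∧ s.im ≤ T + H}

/-- the multiplicity of a zero -/
noncomputable def mult {q : ℕ} [NeZero q] (χ : DirichletCharacter ℂ q) (s : ℂ) : ℕ :=
  analyticOrderNatAt (DirichletCharacter.LFunction χ) s

/-- the number of ordered pairs of zeros in `zeros χ T H`, counted with multiplicity, with
difference of the ordinates times `log T / 2π` in `[α, β]` -/
noncomputable def N {q : ℕ} [NeZero q] (χ : DirichletCharacter ℂ q) (T H α β : ℝ) : ℕ :=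
  ∑ᶠ s ∈ zeros χ T H, ∑ᶠ s' ∈ {s' : ℂ | s' ∈ zeros χ T H ∧
    α ≤ (s.im - s'.im) * Real.log T / (2 * Real.pi) ∧
    (s.im - s'.im) * Real.log T / (2 * Real.pi) ≤ β}, mult χ s * mult χ s'

/-- the Montgomery-Taylor kernel at `r` times the mean spacing -/
noncomputable def K (r : ℝ) : ℝ :=
  (∫ t in (-1 / 2 : ℝ)..(1 / 2), Real.cos (Real.sqrt 2 * t) * Real.cos (2 * Real.pi * r * t)) /
    (Real.sqrt 2 * Real.sin (1 / Real.sqrt 2))

/-- the Montgomery-Taylor constant -/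
noncomputable def cMT : ℝ :=
  Real.sqrt 2 * Real.tan (1 / Real.sqrt 2) / (1 + Real.tan (1 / Real.sqrt 2) / Real.sqrt 2)

/-- the mean square of the Montgomery-Taylor window, `1.0062...` -/
noncomputable def R0 : ℝ :=
  (1 + Real.sin (Real.sqrt 2) / Real.sqrt 2) / (4 * Real.sin (1 / Real.sqrt 2) ^ 2)

/-- the constant for intervals of length `T^h`; `c 1 = cMT⁻¹ = 1.3274...` -/
noncomputable def c (h : ℝ) : ℝ := R0 / h + h * (cMT⁻¹ - R0)

/-- the lower bound for the density of the isolated zeros in intervals of length `T^h` -/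
noncomputable def p (h r : ℝ) : ℝ := 1 - (c h - 1) / K (h * r) ^ 2

/-- modulus `1`: the Riemann zeta function -/
theorem zeta_case (χ : DirichletCharacter ℂ 1) :
    χ.IsPrimitive ∧ DirichletCharacter.LFunction χ = riemannZeta := by
  refine ⟨?_, DirichletCharacter.LFunction_modOne_eq⟩
  rw [DirichletCharacter.level_one' χ rfl]
  exact DirichletCharacter.isPrimitive_one_level_one

theorem zeros_eq {q : ℕ} [NeZero q] (χ : DirichletCharacter ℂ q) (T H : ℝ) :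
    zeros χ T H = H370.zset (DirichletCharacter.LFunction χ) T (T + H) := by
  ext s
  simp only [zeros, H370.zset, Set.mem_ofPred_eq]
  tauto

/-- the sets of zeros that are summed over are finite -/
theorem zeros_finite {q : ℕ} [NeZero q] (χ : DirichletCharacter ℂ q) (hχ : χ.IsPrimitive)
    (T H : ℝ) (hT : 0 < T) : (zeros χ T H).Finite := by
  rw [zeros_eq]
  exact H370.zset_finite' (H370.good_dirichlet χ hχ) T (T + H) hT

theorem N_eq {q : ℕ} [NeZero q] (χ : DirichletCharacter ℂ q) (T H α β : ℝ) :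
    N χ T H α β = Pool.Agent.H24R3.PairsShort.NP (DirichletCharacter.LFunction χ) T H α β := by
  unfold N Pool.Agent.H24R3.PairsShort.NP mult H370.mult
  rw [zeros_eq]

theorem K_eq (r : ℝ) : K r = H344.KK r := by
  have h := H370.GramAux.kap_re_mul (2 * Real.pi * r)
  have hd := H370.GramAux.den_pos.ne'
  unfold K H344.KK
  rw [← h, mul_div_cancel_left₀ _ hd]

theorem c_eq {h : ℝ} (hh : 0 < h) : c h = H295Iso.c0 h := by
  have h1 : cMT⁻¹ = H370.cMTinv := H370.cMTinv_eq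
  have h2 := H228SI.constS 1 one_pos le_rfl
  have h4 : Real.sqrt 2 / 2 = 1 / Real.sqrt 2 := by
    rw [div_eq_div_iff (by norm_num) (by positivity), Real.mul_self_sqrt (by norm_num), one_mul]
  have h3 : H295SI.RS (Real.sqrt 2) 0 = R0 := by
    unfold H295SI.RS R0
    have hs : Real.sqrt 2 ^ 2 = 2 := Real.sq_sqrt (by norm_num)
    rw [if_pos (by norm_num), hs, h4]
    simp only [abs_zero, sub_zero, mul_zero, Real.cos_zero, mul_one]
    ring
  have h5 : H295SI.cc 1 = H370.cMTinv := by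
    unfold H295SI.cc H370.cMTinv
    rfl
  rw [mul_one, h5] at h2
  unfold c H295Iso.c0 H295SI.cR
  unfold H295SI.cR at h2
  rw [h3] at h2 ⊢
  rw [h1, ← h2]
  ring

theorem p_eq {h : ℝ} (hh : 0 < h) (r : ℝ) : p h r = Pool.Agent.H24R3.PairsShort.pd h r := by
  unfold p Pool.Agent.H24R3.PairsShort.pd
  rw [c_eq hh, K_eq]

/-- The lower bounds for the number of pairs in every short interval. -/
theorem result (q : ℕ) [NeZero q] (χ : DirichletCharacter ℂ q) (hχ : χ.IsPrimitive) :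
    (∀ h r α β ε : ℝ, 0 < h → h ≤ 1 → 0 < r → h * r ≤ 1 / 3 → 0 < α → 0 < β → 0 < ε →
      ∃ T₀ : ℝ, ∀ T : ℝ, T₀ ≤ T → ∀ H : ℝ, T ^ h ≤ H → H ≤ T →
        (∑ k ∈ Finset.Icc ⌈α / r⌉₊ ⌊β * p h r⌋₊, (p h r - k / β) - ε) *
          (H / (2 * Real.pi) * Real.log T) ≤ (N χ T H α β : ℝ)) ∧
    (∀ h β : ℝ, 0 < h → h ≤ 1 → c h < 2 → 1 / (2 - c h) < β →
      ∃ α : ℝ, 0 < α ∧ ∃ κ : ℝ, 0 < κ ∧ ∃ T₀ : ℝ, ∀ T : ℝ, T₀ ≤ T → ∀ H : ℝ, T ^ h ≤ H →
        H ≤ T → κ * (H * Real.log T) ≤ (N χ T H α β : ℝ)) ∧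
    (∀ α β : ℝ, 0 < α → 2 * (⌈3 * α⌉₊ : ℝ) ≤ β →
      ∃ δ : ℝ, 0 < δ ∧ δ < 1 ∧ ∃ κ : ℝ, 0 < κ ∧ ∃ T₀ : ℝ, ∀ T : ℝ, T₀ ≤ T → ∀ H : ℝ,
        T ^ (1 - δ) ≤ H → H ≤ T → κ * (H * Real.log T) ≤ (N χ T H α β : ℝ)) ∧
    (∃ δ : ℝ, 0 < δ ∧ δ < 1 ∧ ∃ T₀ : ℝ, ∀ T : ℝ, T₀ ≤ T → ∀ H : ℝ,
      T ^ (1 - δ) ≤ H → H ≤ T →
        1 / 100 * (H / (2 * Real.pi) * Real.log T) ≤ (N χ T H (1 / 6) (8 / 5) : ℝ)) := by
  have hF := H370.good_dirichlet χ hχ
  refine ⟨?_, ?_, ?_, ?_⟩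
  · intro h r α β ε hh hh1 hr0 hr hα hβ hε
    obtain ⟨T0, -, hT0⟩ := Pool.Agent.H24R3.PairsShort.pairs hF hh hh1 hr0 hr hα hβ hε
    refine ⟨T0, fun T hT H hH hHT => ?_⟩
    rw [N_eq, p_eq hh]
    exact hT0 T hT H hH hHT
  · intro h β hh hh1 hc hβ
    rw [c_eq hh] at hc hβ
    obtain ⟨α, hα, κ, hκ, T0, hT0⟩ :=
      Pool.Agent.H24R3.PairsShort.part_two hF hh hh1 hc hβ
    refine ⟨α, hα, κ, hκ, T0, fun T hT H hH hHT => ?_⟩
    rw [N_eq]
    exact hT0 T hT H hH hHT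
  · intro α β hα hβ
    obtain ⟨δ, hδ0, hδ1, κ, hκ, T0, hT0⟩ := Pool.Agent.H24R3.PairsShort.part_three hF hα hβ
    refine ⟨δ, hδ0, hδ1, κ, hκ, T0, fun T hT H hH hHT => ?_⟩
    rw [N_eq]
    exact hT0 T hT H hH hHT
  · obtain ⟨δ, hδ0, hδ1, T0, hT0⟩ := Pool.Agent.H24R3.PairsShort.part_four hF
    refine ⟨δ, hδ0, hδ1, T0, fun T hT H hH hHT => ?_⟩
    rw [N_eq]
    exact hT0 T hT H hH hHT

end Pool.Agent.Results.MP_8958e8_nt.ShortIntervalPairs
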